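import Pool.Agent.Helper18_AEU.LM

/-!
Squad AEU, Part II: module EVT (matched events).
-/

namespace Pool.Agent.AEU.H18

open MeasureTheory Complex Filter Topology Pool.Agent.H62T Pool.Agent.AEU
open Pool.Agent.H16F (Sublin)

lemma sublin_scale {h : ℂ → ℝ} (hh : Sublin h) {σ : ℝ} (hσ : 0 ≤ σ) (x : ℂ) :
    Sublin (fun w => σ * h w + ip w x) := by
  obtain ⟨h1, h2⟩ := hh
  refine ⟨?_, ?_⟩
  · intro v w
    have h3 := mul_le_mul_of_nonneg_left (h1 v w) hσ
    simp only [ip, Complex.add_re, Complex.add_im]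
    nlinarith
  · intro t ht w
    simp only [ip, h2 t ht w, Complex.mul_re, Complex.mul_im, Complex.ofReal_re,
      Complex.ofReal_im]
    ring

lemma lam_scale (hlam : LamStatement) {h : ℂ → ℝ} (hh : Sublin h) {σ : ℝ} (hσ : 0 < σ)
    (hσ1 : σ ≤ 1) (x : ℂ) : lam (fun w => σ * h w + ip w x) ≤ lam h := by
  have h1 := hlam.1 h h hh hh σ 0 x
  have h2 : (fun w => σ * h w + 0 * h w + ip w x) = fun w => σ * h w + ip w x := by
    funext w
    ring
  rw [h2] at h1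
  rw [h1]
  have h3 := hlam.2.2.1 h hh
  nlinarith

/-- one direction -/
lemma evt_half (hmsy : MsyStatement) (hact : ActStatement) (hlam : LamStatement)
    {P Q S : Finset HP} {g : Iso2} {c : ℝ}
    (hloc : ∀ h, Sublin h → Fits P h → S ⊆ touch P h → lam h < c → Mat P Q g h)
    {h : ℂ → ℝ} (hh : Sublin h) (hc : lam h < c) (hev : Ev P S h) :
    Ev Q (S.image (mv g)) (mb g h) := by
  obtain ⟨σ, x, hσ, hσ1, hf, ht⟩ := hev
  have hM := hloc _ (sublin_scale hh hσ.le x) hf ht.ge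
    (lt_of_le_of_lt (lam_scale hlam hh hσ hσ1 x) hc)
  have h1 := (hmsy P Q g _ hM).2.1
  have h2 := hact.2.2.2.2.2.2.2.2.2.2.2.2.2 g σ h x
  have h3 := hM.fits'
  rw [ht] at h1
  rw [h2] at h1 h3
  exact ⟨σ, g x - (σ : ℂ) * g 0, hσ, hσ1, h3, h1⟩

/-- EVT -/
theorem evt (hloc : LocStatement) (hmsy : MsyStatement) (hact : ActStatement)
    (hlam : LamStatement) : EvtStatement := by
  intro P Q gP gQ L ok ok' S g h₀ hcard hh₀ hM hL hS
  obtain ⟨hM', ht', -⟩ := hmsy P Q g h₀ hM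
  have hback : (S.image (mv g)).image (mv g⁻¹) = S := by
    rw [Finset.image_image]
    have h1 : mv g⁻¹ ∘ mv g = id := by
      funext s
      simp only [Function.comp, id]
      rw [← hact.1, inv_mul_cancel, hact.2.1]
    rw [h1, Finset.image_id]
  obtain ⟨δ₁, hδ₁, h1⟩ := hloc P Q gP gQ L ok ok' S g h₀ hcard hh₀ hM hL hS
  obtain ⟨δ₂, hδ₂, h2⟩ := hloc Q P gQ gP L ok' ok (S.image (mv g)) g⁻¹ (mb g h₀)
    (by rw [Finset.card_image_of_injective _ (mv_inj hact g), hcard])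
    (hact.2.2.2.2.2.2.2.2.2.2.1 g h₀ hh₀) hM' (by rw [hlam.2.2.2 g h₀ hh₀]; exact hL)
    (by rw [ht']; exact Finset.image_subset_image hS)
  refine ⟨min δ₁ δ₂, lt_min hδ₁ hδ₂, fun h hh hlt => ⟨fun hev => ?_, fun hev => ?_⟩⟩
  · exact evt_half hmsy hact hlam h1 hh
      (lt_of_lt_of_le hlt (by linarith [min_le_left δ₁ δ₂])) hev
  · have h3 := evt_half hmsy hact hlam h2 (hact.2.2.2.2.2.2.2.2.2.2.1 g h hh)
      (by rw [hlam.2.2.2 g h hh]; linarith [min_le_right δ₁ δ₂]) hev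
    rw [hback, ← hact.2.2.1, inv_mul_cancel, hact.2.2.2.1] at h3
    exact h3

end Pool.Agent.AEU.H18
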