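import Pool.Agent.Helper25_AEU.Stmt

/-!
Squad AEU, Part II: module LM (Lemma M). A critical body cannot be moved into `Q` in such a way
that the sides which it touches become sides of `Q`.
-/

namespace Pool.Agent.AEU.H18

open MeasureTheory Complex Filter Topology Pool.Agent.H62T Pool.Agent.AEU
open Pool.Agent.H16F (Sublin)

lemma mem_touch {P : Finset HP} {h : ℂ → ℝ} {s : HP} :
    s ∈ touch P h ↔ s ∈ P ∧ h s.1 = s.2 := by
  unfold touch
  rw [Finset.mem_filter]

lemma touch_sub {P : Finset HP} {h : ℂ → ℝ} : touch P h ⊆ P := Finset.filter_subset _ _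

lemma mv_inj (hact : ActStatement) (g : Iso2) : Function.Injective (mv g) := by
  intro s t hst
  have h1 : mv g⁻¹ (mv g s) = s := by
    rw [← hact.1, inv_mul_cancel, hact.2.1]
  have h2 : mv g⁻¹ (mv g t) = t := by
    rw [← hact.1, inv_mul_cancel, hact.2.1]
  rw [← h1, ← h2, hst]

/-- LM -/
theorem lm (hmsy : MsyStatement) (huni : UniStatement) (hact : ActStatement)
    (hlam : LamStatement) : LmStatement := by
  rintro P Q hP hQ gP gQ L h hc ⟨g, hf, hg⟩
  obtain ⟨hsp, hnm⟩ := hc.unm
  -- the image of the contact set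
  have himg : ∀ s ∈ touch P h, mv g s ∈ touch Q (mb g h) := by
    intro s hs
    rw [mem_touch]
    refine ⟨hg s hs, ?_⟩
    have h1 := hact.2.2.2.2.1 g h s
    have h2 := (mem_touch.1 hs).2
    linarith
  by_cases hmem : ∀ t ∈ touch Q (mb g h), mv g⁻¹ t ∈ P
  · exact hnm ⟨g, ⟨hsp.fits, hf, hg, hmem⟩⟩
  push Not at hmem
  obtain ⟨t, ht, htP⟩ := hmem
  -- the image touches more sides
  have hcard : (touch P h).card < (touch Q (mb g h)).card := by
    rw [← Finset.card_image_of_injective (touch P h) (mv_inj hact g)]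
    refine Finset.card_lt_card ⟨?_, ?_⟩
    · intro x hx
      obtain ⟨s, hs, rfl⟩ := Finset.mem_image.1 hx
      exact himg s hs
    · intro hsub
      obtain ⟨s, hs, hst⟩ := Finset.mem_image.1 (hsub ht)
      apply htP
      rw [← hst, ← hact.1, inv_mul_cancel, hact.2.1]
      exact touch_sub hs
  have h3 := hsp.three
  have hspQ : Special Q (mb g h) :=
    ⟨hact.2.2.2.2.2.2.2.2.2.2.1 g h hsp.sub, hf, by omega, Or.inr (by omega)⟩
  have hlamQ : lam (mb g h) = L := by
    rw [hlam.2.2.2 g h hsp.sub, hc.lam]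
  by_cases hm : ∃ g', Mat Q P g' (mb g h)
  · obtain ⟨g', hg'⟩ := hm
    have hone : g' * g = 1 := by
      refine (huni.2 P P hP hP gP gP (g' * g) 1).2 (touch P h) touch_sub h3 ?_ ?_
      · intro s hs
        rw [hact.1]
        exact hg'.mem _ (himg s hs)
      · intro s hs
        rw [hact.2.1]
        exact touch_sub hs
    have hg'' : g' = g⁻¹ := eq_inv_of_mul_eq_one_left hone
    have hM := (hmsy Q P g' (mb g h) hg').1
    rw [hg'', inv_inv, ← hact.2.2.1, inv_mul_cancel, hact.2.2.2.1] at hM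
    exact hnm ⟨g, hM⟩
  · have h4 := hc.max' (mb g h) ⟨hspQ, hm⟩ hlamQ
    omega

end Pool.Agent.AEU.H18
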